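import Mathlib
import Pool.Agent.H65.N6P.Targets

set_option autoImplicit false

open Polynomial NumberField IsDedekindDomain Matrix Pool.Agent.H32.QC Pool.Agent.H34.N6
  Pool.Agent.H65.N6P

namespace Pool.Agent.H64.N6P

section
variable {F : Type} [NormedField F] [IsUltrametricDist F]

lemma norm_eval_le (Q : F[X]) (M : ℝ) (hM : 0 ≤ M) (hQ : ∀ i, ‖Q.coeff i‖ ≤ M) (x : F)
    (hx : ‖x‖ ≤ 1) : ‖eval x Q‖ ≤ M := by
  rw [eval_eq_sum_range]
  apply IsUltrametricDist.norm_sum_le_of_forall_le_of_nonneg hM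
  intro i _
  rw [norm_mul, norm_pow]
  calc ‖Q.coeff i‖ * ‖x‖ ^ i ≤ M * 1 :=
        mul_le_mul (hQ i) (pow_le_one₀ (norm_nonneg _) hx) (by positivity) hM
    _ = M := mul_one M

lemma norm_pow_sub_le (x y : F) (hx : ‖x‖ ≤ 1) (hy : ‖y‖ ≤ 1) (n : ℕ) :
    ‖x ^ n - y ^ n‖ ≤ ‖x - y‖ := by
  induction n with
  | zero => simp
  | succ n ih =>
    have h1 : x ^ (n + 1) - y ^ (n + 1) = x ^ n * (x - y) + (x ^ n - y ^ n) * y := by ring
    rw [h1]
    refine le_trans (IsUltrametricDist.norm_add_le_max _ _) (max_le ?_ ?_)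
    · rw [norm_mul, norm_pow]
      calc ‖x‖ ^ n * ‖x - y‖ ≤ 1 * ‖x - y‖ :=
            mul_le_mul_of_nonneg_right (pow_le_one₀ (norm_nonneg _) hx) (norm_nonneg _)
        _ = _ := one_mul _
    · rw [norm_mul]
      calc ‖x ^ n - y ^ n‖ * ‖y‖ ≤ ‖x - y‖ * 1 := mul_le_mul ih hy (norm_nonneg _) (norm_nonneg _)
        _ = _ := mul_one _

lemma norm_eval_sub_le (Q : F[X]) (M : ℝ) (hM : 0 ≤ M) (hQ : ∀ i, ‖Q.coeff i‖ ≤ M) (x y : F)
    (hx : ‖x‖ ≤ 1) (hy : ‖y‖ ≤ 1) : ‖eval x Q - eval y Q‖ ≤ M * ‖x - y‖ := by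
  rw [eval_eq_sum_range, eval_eq_sum_range, ← Finset.sum_sub_distrib]
  apply IsUltrametricDist.norm_sum_le_of_forall_le_of_nonneg (by positivity)
  intro i _
  rw [← mul_sub, norm_mul]
  exact mul_le_mul (hQ i) (norm_pow_sub_le x y hx hy i) (norm_nonneg _) hM

lemma norm_taylor_coeff_le (G : F[X]) (θ : F) (B : ℝ) (hB : 1 ≤ B) (hG : ∀ i, ‖G.coeff i‖ ≤ B)
    (hθ : ‖θ‖ ≤ B) (n : ℕ) : ‖(taylor θ G).coeff n‖ ≤ B ^ (G.natDegree + 1) := by
  have hB0 : 0 ≤ B := zero_le_one.trans hB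
  rw [taylor_coeff, hasseDeriv_apply, sum_over_range' _ (by simp) (G.natDegree + 1) (Nat.lt_succ_self _),
    eval_finsetSum]
  apply IsUltrametricDist.norm_sum_le_of_forall_le_of_nonneg (by positivity)
  intro i hi
  rw [eval_monomial, norm_mul, norm_mul, norm_pow]
  have h1 : ‖((i.choose n : ℕ) : F)‖ ≤ 1 := IsUltrametricDist.norm_natCast_le_one F _
  have h2 : ‖θ‖ ^ (i - n) ≤ B ^ G.natDegree := by
    calc ‖θ‖ ^ (i - n) ≤ B ^ (i - n) := pow_le_pow_left₀ (norm_nonneg _) hθ _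
      _ ≤ B ^ G.natDegree := pow_le_pow_right₀ hB (by
          have := Finset.mem_range.1 hi
          omega)
  calc ‖((i.choose n : ℕ) : F)‖ * ‖G.coeff i‖ * ‖θ‖ ^ (i - n)
      ≤ 1 * B * B ^ G.natDegree := by
        apply mul_le_mul _ h2 (by positivity) (by positivity)
        exact mul_le_mul h1 (hG i) (norm_nonneg _) zero_le_one
    _ = B ^ (G.natDegree + 1) := by ring

end

theorem pf_NEW : T_NEW := by
  intro F _ _ _ G θ B hB hG hθ hlt
  set M : ℝ := B ^ (G.natDegree + 1) with hMdef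
  have hB0 : 0 ≤ B := zero_le_one.trans hB
  have hM0 : 0 ≤ M := by positivity
  have hM1 : 1 ≤ M := one_le_pow₀ hB
  set P := taylor θ G with hP
  have hPc : ∀ n, ‖P.coeff n‖ ≤ M := norm_taylor_coeff_le G θ B hB hG hθ
  set g := eval θ G with hg
  set c := eval θ (derivative G) with hc
  have hP0 : P.coeff 0 = g := taylor_coeff_zero θ G
  have hP1 : P.coeff 1 = c := taylor_coeff_one θ G
  have hcpos : 0 < ‖c‖ := by
    by_contra h
    have : ‖c‖ = 0 := le_antisymm (not_lt.1 h) (norm_nonneg _)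
    rw [this] at hlt
    have : 0 ≤ ‖g‖ * M := by positivity
    simp at hlt
    linarith
  have hc0 : c ≠ 0 := norm_pos_iff.1 hcpos
  set Q := divX (divX P) with hQ
  have hQc : ∀ i, ‖Q.coeff i‖ ≤ M := by
    intro i
    rw [hQ, coeff_divX, coeff_divX]
    exact hPc _
  have hev : ∀ h : F, eval (h + θ) G = g + c * h + h ^ 2 * eval h Q := by
    intro h
    have e1 : eval h P = eval (h + θ) G := by rw [hP, taylor_eval]
    have e2 : P = X * (X * Q + C c) + C g := by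
      rw [← hP0, ← hP1, hQ]
      have := divX_mul_X_add P
      have h2 := divX_mul_X_add (divX P)
      rw [coeff_divX] at h2
      calc P = divX P * X + C (P.coeff 0) := this.symm
        _ = X * (X * divX (divX P) + C (P.coeff 1)) + C (P.coeff 0) := by
          conv_lhs => rw [← h2]
          simp only [zero_add]
          ring
    rw [← e1]
    conv_lhs => rw [e2]
    simp only [eval_add, eval_mul, eval_X, eval_C]
    ring
  set ρ : ℝ := ‖g‖ / ‖c‖ with hρ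
  have hρ0 : 0 ≤ ρ := by positivity
  have hρM : ρ * M < ‖c‖ := by
    rw [hρ, div_mul_eq_mul_div, div_lt_iff₀ hcpos]
    nlinarith
  have hcM : ‖c‖ ≤ M := by rw [← hP1]; exact hPc 1
  have hρ1 : ρ ≤ 1 := by
    by_contra h
    have h' : 1 < ρ := not_le.1 h
    nlinarith
  set κ : ℝ := ρ * M / ‖c‖ with hκ
  have hκ0 : 0 ≤ κ := by positivity
  have hκ1 : κ < 1 := by rw [hκ, div_lt_one hcpos]; exact hρM
  let T : F → F := fun h => -(g + h ^ 2 * eval h Q) / c
  let s : Set F := Metric.closedBall (0 : F) ρ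
  have hmem : ∀ x, x ∈ s ↔ ‖x‖ ≤ ρ := fun x => mem_closedBall_zero_iff
  have hmaps : Set.MapsTo T s s := by
    intro x hx
    rw [hmem] at hx ⊢
    have hx1 : ‖x‖ ≤ 1 := hx.trans hρ1
    show ‖-(g + x ^ 2 * eval x Q) / c‖ ≤ ρ
    rw [norm_div, norm_neg, hρ]
    apply div_le_div_of_nonneg_right _ hcpos.le
    refine le_trans (IsUltrametricDist.norm_add_le_max _ _) (max_le le_rfl ?_)
    rw [norm_mul, norm_pow]
    have h1 : ‖eval x Q‖ ≤ M := norm_eval_le Q M hM0 hQc x hx1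
    have h2 : ‖g‖ = ρ * ‖c‖ := by rw [hρ]; field_simp
    calc ‖x‖ ^ 2 * ‖eval x Q‖ ≤ ρ ^ 2 * M :=
          mul_le_mul (pow_le_pow_left₀ (norm_nonneg _) hx 2) h1 (norm_nonneg _) (by positivity)
      _ = ρ * (ρ * M) := by ring
      _ ≤ ρ * ‖c‖ := mul_le_mul_of_nonneg_left hρM.le hρ0
      _ = ‖g‖ := h2.symm
  have hlip : ∀ x ∈ s, ∀ y ∈ s, ‖T x - T y‖ ≤ κ * ‖x - y‖ := by
    intro x hx y hy
    rw [hmem] at hx hy
    have hx1 : ‖x‖ ≤ 1 := hx.trans hρ1
    have hy1 : ‖y‖ ≤ 1 := hy.trans hρ1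
    have e : T x - T y = -(x ^ 2 * (eval x Q - eval y Q) + ((x + y) * eval y Q) * (x - y)) / c := by
      show -(g + x ^ 2 * eval x Q) / c - -(g + y ^ 2 * eval y Q) / c = _
      rw [← sub_div]
      congr 1
      ring
    rw [e, norm_div, norm_neg, hκ, div_mul_eq_mul_div]
    apply div_le_div_of_nonneg_right _ hcpos.le
    refine le_trans (IsUltrametricDist.norm_add_le_max _ _) (max_le ?_ ?_)
    · rw [norm_mul, norm_pow]
      calc ‖x‖ ^ 2 * ‖eval x Q - eval y Q‖ ≤ ρ * (M * ‖x - y‖) := by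
            apply mul_le_mul _ (norm_eval_sub_le Q M hM0 hQc x y hx1 hy1) (norm_nonneg _) hρ0
            calc ‖x‖ ^ 2 ≤ ρ ^ 2 := pow_le_pow_left₀ (norm_nonneg _) hx 2
              _ = ρ * ρ := by ring
              _ ≤ ρ * 1 := mul_le_mul_of_nonneg_left hρ1 hρ0
              _ = ρ := mul_one _
        _ = ρ * M * ‖x - y‖ := by ring
    · rw [norm_mul, norm_mul]
      apply mul_le_mul_of_nonneg_right _ (norm_nonneg _)
      apply mul_le_mul _ (norm_eval_le Q M hM0 hQc y hy1) (norm_nonneg _) hρ0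
      exact le_trans (IsUltrametricDist.norm_add_le_max _ _) (max_le hx hy)
  have hcomp : IsComplete s := Metric.isClosed_closedBall.isComplete
  have hcw : ContractingWith ⟨κ, hκ0⟩ (hmaps.restrict T s s) := by
    refine ⟨by exact_mod_cast hκ1, ?_⟩
    apply LipschitzWith.of_dist_le_mul
    intro x y
    show dist (T x.1) (T y.1) ≤ κ * dist x.1 y.1
    rw [dist_eq_norm, dist_eq_norm]
    exact hlip x.1 x.2 y.1 y.2
  obtain ⟨h, hhs, hfix, _⟩ := hcw.exists_fixedPoint' hcomp hmaps (x := 0)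
    ((hmem 0).2 (by simpa using hρ0)) (edist_ne_top _ _)
  refine ⟨h + θ, ?_, ?_⟩
  · rw [hev]
    have : -(g + h ^ 2 * eval h Q) / c = h := hfix
    rw [div_eq_iff hc0] at this
    linear_combination -this
  · have h1 : θ - (h + θ) = -h := by ring
    rw [h1, norm_neg]
    have := (hmem h).1 hhs
    calc ‖h‖ * ‖c‖ ≤ ρ * ‖c‖ := mul_le_mul_of_nonneg_right this hcpos.le
      _ = ‖g‖ := by rw [hρ]; field_simp

end Pool.Agent.H64.N6P
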