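import Mathlib
import Pool.Agent.H65.N6P.Targets

set_option autoImplicit false

open Polynomial NumberField IsDedekindDomain Matrix Pool.Agent.H32.QC Pool.Agent.H34.N6
  Pool.Agent.H65.N6P

namespace Pool.Agent.H64.N6P

theorem pf_SQR (hNEW : T_NEW) : T_SQR := by
  intro F _ _ _ x hx
  have h4 : ‖(4 : F)‖ ≤ 1 := by
    have := IsUltrametricDist.norm_natCast_le_one F 4
    simpa using this
  have hx1 : ‖x‖ < 1 := lt_of_lt_of_le hx h4
  have h1x : ‖(1 : F) + x‖ ≤ 1 := by
    refine le_trans (IsUltrametricDist.norm_add_le_max _ _) (max_le (by simp) hx1.le)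
  have hd : (X ^ 2 - C (1 + x) : F[X]).natDegree = 2 := natDegree_X_pow_sub_C
  have hc : ∀ i, ‖(X ^ 2 - C (1 + x) : F[X]).coeff i‖ ≤ 1 := by
    intro i
    rw [coeff_sub, coeff_X_pow, coeff_C, sub_eq_add_neg]
    refine le_trans (IsUltrametricDist.norm_add_le_max _ _) (max_le ?_ ?_)
    · split_ifs <;> simp
    · rw [norm_neg]
      split_ifs <;> simp [h1x]
  have he : eval (1 : F) (X ^ 2 - C (1 + x)) = -x := by simp
  have hde : eval (1 : F) (derivative (X ^ 2 - C (1 + x))) = 2 := by
    simp only [derivative_sub, derivative_X_pow, derivative_C, sub_zero, eval_mul, eval_C, eval_pow,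
      eval_X]
    norm_num
  obtain ⟨u, hu, -⟩ := hNEW F (X ^ 2 - C (1 + x)) 1 1 le_rfl hc (by simp) (by
    rw [he, hde, norm_neg, one_pow, mul_one, ← norm_pow]
    have : ((2 : F) ^ 2) = 4 := by norm_num
    rw [this]
    exact hx)
  have hu2 : u ^ 2 = 1 + x := by
    have : eval u (X ^ 2 - C (1 + x)) = u ^ 2 - (1 + x) := by simp
    rw [this] at hu
    linear_combination hu
  refine ⟨u, ?_, hu2⟩
  rintro rfl
  have : x = -1 := by linear_combination -hu2
  rw [this, norm_neg, norm_one] at hx1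
  exact lt_irrefl _ hx1

end Pool.Agent.H64.N6P
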